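import Pool.Agent.Work.MP_6229d2_co.MaxFinal

/-!
# The maximum `M(n,k)` of the mean broken-cycle-free subgraph size near the complete graph

Problem MP_6229d2_co, Q1 (the maximum half, for `n.choose 2 - n / 2 ≤ k < n.choose 2`).

Write `k = n.choose 2 - t` with `1 ≤ t ≤ n / 2`. Then the largest value of `ε(G)` over the graphs
with `n` vertices and `k` edges is `n - B / A` with `A = ∑_{j ≤ t} (-1)^j C(t,j) (n-j)!` and
`B = ∑_{j ≤ t} (-1)^j C(t,j) (n-j)! H_{n-j}`, where `H_m` is the harmonic number. It is attained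
exactly by the graphs whose complement is a matching, and these are connected.
-/

set_option autoImplicit false

namespace Pool.Agent.Results.MP_6229d2_co.MaximumNearComplete

open Pool.Agent.Work.MP_6229d2_co

/-- **The value of `M(n,k)` for `k = n.choose 2 - t`, `1 ≤ t ≤ n / 2`.** -/
theorem result (n t : ℕ) (hn : 4 ≤ n) (h1 : 1 ≤ t) (ht : 2 * t ≤ n) :
    n - 1 < n.choose 2 - t ∧ n.choose 2 - t < n.choose 2 ∧
      (∀ (G : SimpleGraph (Fin n)) (ord : LinearOrder (Sym2 (Fin n))),
        G.edgeSet.ncard = n.choose 2 - t →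
          eps G ord ≤ n -
            (∑ j ∈ Finset.range (t + 1),
              (-1) ^ j * (t.choose j : ℚ) * ((n - j).factorial * harmonic (n - j))) /
            ∑ j ∈ Finset.range (t + 1), (-1) ^ j * (t.choose j : ℚ) * (n - j).factorial) ∧
      (∀ (G : SimpleGraph (Fin n)) (ord : LinearOrder (Sym2 (Fin n))),
        G.edgeSet.ncard = n.choose 2 - t →
          (eps G ord = n -
            (∑ j ∈ Finset.range (t + 1),
              (-1) ^ j * (t.choose j : ℚ) * ((n - j).factorial * harmonic (n - j))) /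
            ∑ j ∈ Finset.range (t + 1), (-1) ^ j * (t.choose j : ℚ) * (n - j).factorial ↔
          ∀ x y z : Fin n, Gᶜ.Adj x y → Gᶜ.Adj x z → y = z)) ∧
      ∃ G : SimpleGraph (Fin n), G.Connected ∧ G.edgeSet.ncard = n.choose 2 - t ∧
        ∀ x y z : Fin n, Gᶜ.Adj x y → Gᶜ.Adj x z → y = z := by
  have hc : n + t ≤ n.choose 2 := by
    rw [Nat.choose_two_right, Nat.le_div_iff_mul_le (by norm_num)]
    obtain ⟨m, rfl⟩ : ∃ m, n = m + 4 := ⟨n - 4, by omega⟩
    rw [show m + 4 - 1 = m + 3 by omega]
    nlinarith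
  have hk : ∀ G : SimpleGraph (Fin n), G.edgeSet.ncard = n.choose 2 - t →
      G.edgeSet.ncard + t = n.choose 2 := fun G h => by omega
  refine ⟨by omega, by omega, fun G ord hG => top_upper (by omega) ht G ord (hk G hG),
    fun G ord hG => ⟨fun h x y z hy hz => top_unique (by omega) ht G ord (hk G hG) h x y z hy hz,
      fun h => top_of_matching G ord (hk G hG) h⟩, ?_⟩
  obtain ⟨g1, g2, _⟩ := top_attained hn ht
  refine ⟨(mat n t)ᶜ, g1, by omega, fun x y z hy hz => ?_⟩
  rw [compl_compl] at hy hz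
  have e1 := hy.2.1
  have e2 := hz.2.1
  have n1 : x.val ≠ y.val := fun h => hy.1 (Fin.ext h)
  have n2 : x.val ≠ z.val := fun h => hz.1 (Fin.ext h)
  apply Fin.ext
  omega

end Pool.Agent.Results.MP_6229d2_co.MaximumNearComplete
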