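import Pool.Agent.Work.MP_6229d2_co.Extremal

/-!
# The minimum `m(n,k)` of the mean broken-cycle-free subgraph size

Problem MP_6229d2_co, Q1 (the minimum half).

For a connected graph `G` with `n` vertices and `k` edges, `n - 1 < k < n.choose 2`, write
`k = n - 1 + s(s+1)/2 + p` with `0 ≤ p ≤ s` (this is possible in exactly one way). Then the
least value of `ε(G)` is `(n-1)/2 + ∑_{i < s} (1/2 - 1/(i+3)) + (1/2 - 1/(p+2))`.
It is attained by a complete graph on `s + 2` vertices with one further vertex joined to `p + 1` of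
them and `n - s - 3` pendant vertices.
-/

set_option autoImplicit false

namespace Pool.Agent.Results.MP_6229d2_co.MinimumMeanSize

open Pool.Agent.Work.MP_6229d2_co

/-- **The value of `m(n,k)` for all `n - 1 < k < n.choose 2`.** -/
theorem result (n k : ℕ) (h1 : n - 1 < k) (h2 : k < n.choose 2) :
    ∃ s p : ℕ, p ≤ s ∧ k = n - 1 + s * (s + 1) / 2 + p ∧
      (∀ (G : SimpleGraph (Fin n)) (ord : LinearOrder (Sym2 (Fin n))),
        G.Connected → G.edgeSet.ncard = k →
          ((n : ℚ) - 1) / 2 + ∑ i ∈ Finset.range s, (1 / 2 - 1 / ((i : ℚ) + 3)) +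
            (1 / 2 - 1 / ((p : ℚ) + 2)) ≤ eps G ord) ∧
      ∃ G : SimpleGraph (Fin n), G.Connected ∧ G.edgeSet.ncard = k ∧
        ∀ ord : LinearOrder (Sym2 (Fin n)), eps G ord =
          ((n : ℚ) - 1) / 2 + ∑ i ∈ Finset.range s, (1 / 2 - 1 / ((i : ℚ) + 3)) +
            (1 / 2 - 1 / ((p : ℚ) + 2)) := by
  obtain ⟨s, p, hp, hj⟩ := exists_params (k - (n - 1))
  have hk : k = n - 1 + s * (s + 1) / 2 + p := by omega
  have hn : 0 < n := by
    rcases Nat.eq_zero_or_pos n with h | h
    · rw [h] at h2; simp at h2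
    · exact h
  have hL : ((n : ℚ) - 1) / 2 + ∑ i ∈ Finset.range s, (1 / 2 - 1 / ((i : ℚ) + 3)) +
      (1 / 2 - 1 / ((p : ℚ) + 2)) = ((n : ℚ) - 1) / 2 + Lam s p := by
    rw [Lam, ell, ← add_assoc]
    congr 2
    apply Finset.sum_congr rfl
    intro i _
    rw [ell]
    push_cast
    ring
  refine ⟨s, p, hp, hk, ?_, ?_⟩
  · intro G ord hG hc
    rw [hL]
    exact lower_bound n k s p hn hp hk G ord hG hc
  · obtain ⟨G, h3, h4, h5⟩ := attained n k s p hp hk h2
    exact ⟨G, h3, h4, fun ord => by rw [hL]; exact h5 ord⟩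

end Pool.Agent.Results.MP_6229d2_co.MinimumMeanSize
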