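import Pool.Agent.Work.MP_6229d2_co.SparseFinal

/-!
# The maximum `M(n,k)` of the mean broken-cycle-free subgraph size for `k ≤ 3 n / 2`

Problem MP_6229d2_co, Q1 (the maximum half, to first order, for `n ≤ k ≤ 3 n / 2`).

Every graph with `k` edges has `ε(G) ≤ k / 2`, and for `n - 1 < k ≤ 3 n / 2` some connected graph
with `n` vertices and `k` edges has `ε(G) ≥ k / 2 - 90 n ^ (2/3) (log n) ^ (1/3)`. So
`M(n,k) = k / 2 - O(n ^ (2/3) (log n) ^ (1/3))` uniformly in this range.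
-/

set_option autoImplicit false

namespace Pool.Agent.Results.MP_6229d2_co.SparseMaximum

open Pool.Agent.Work.MP_6229d2_co

/-- **`M(n,k) = k / 2 - O(n ^ (2/3) (log n) ^ (1/3))` for `n - 1 < k ≤ 3 n / 2`.** -/
theorem result (n k : ℕ) (hk : n - 1 < k) (hlt : k < n.choose 2) (hk2 : 2 * k ≤ 3 * n) :
    (∀ (G : SimpleGraph (Fin n)) (ord : LinearOrder (Sym2 (Fin n))),
      G.Connected → G.edgeSet.ncard = k → (eps G ord : ℝ) ≤ k / 2) ∧
    ∃ G : SimpleGraph (Fin n), G.Connected ∧ G.edgeSet.ncard = k ∧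
      ∀ ord : LinearOrder (Sym2 (Fin n)),
        (k : ℝ) / 2 - 90 * ((n : ℝ) ^ (2 / 3 : ℝ) * Real.log n ^ (1 / 3 : ℝ)) ≤
          (eps G ord : ℝ) := by
  refine ⟨fun G ord _ hG => ?_, sparse_lower hk hlt hk2⟩
  have h1 := eps_le_half G ord
  rw [← ncard_edgeSet, hG] at h1
  have h2 : ((eps G ord : ℚ) : ℝ) ≤ (((k : ℚ) / 2 : ℚ) : ℝ) := Rat.cast_le.mpr h1
  push_cast at h2
  exact h2

end Pool.Agent.Results.MP_6229d2_co.SparseMaximum
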