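import Pool.Agent.Work.MP_6229d2_co.Thr.Final

/-!
# The mean broken-cycle-free subgraph size of graphs of average degree larger than three

Problem MP_6229d2_co, Q1 (the maximum half, for `k ≥ (3 / 2 + δ) n`).

For every `δ > 0` there is `c > 0` such that every graph with `n` vertices and `k ≥ (3 / 2 + δ) n`
edges has `ε(G) ≤ k / 2 - c n`. So the formula `M(n,k) = k / 2 - o(n)`, which holds for
`n ≤ k ≤ 3 n / 2`, fails as soon as `k ≥ (3 / 2 + δ) n`.
-/

set_option autoImplicit false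

namespace Pool.Agent.Results.MP_6229d2_co.SparseThreshold

open Pool.Agent.Work.MP_6229d2_co

/-- **`M(n,k) ≤ k / 2 - c n` for `k ≥ (3 / 2 + δ) n`.** -/
theorem result (δ : ℝ) (hδ : 0 < δ) : ∃ c : ℝ, 0 < c ∧
    ∀ (n k : ℕ) (G : SimpleGraph (Fin n)) (ord : LinearOrder (Sym2 (Fin n))),
      (3 / 2 + δ) * n ≤ k → G.edgeSet.ncard = k → (eps G ord : ℝ) ≤ k / 2 - c * n := by
  obtain ⟨c, hc, h⟩ := Thr.threshold δ hδ
  refine ⟨c, hc, fun n k G ord hk hG => ?_⟩
  have h1 := h (Fin n) G ord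
  rw [← ncard_edgeSet, hG, Fintype.card_fin] at h1
  exact h1 hk

end Pool.Agent.Results.MP_6229d2_co.SparseThreshold
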